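import Mathlib

/-!
# A ZFC example of a sequentially pseudocompact Boolean group that is not selectively
# sequentially pseudocompact

The group is a subgroup `G` of the compact group `(ZMod 2) ^ ℝ` (so it has weight continuum) that
projects onto every countable subproduct (so it is pseudocompact) and has no nontrivial convergent
sequences.
-/

set_option autoImplicit false

open Set Filter Topology Cardinal

namespace Pool.Agent.Results.MP_3c9c51_gt.ZfcExampleH80

/-- A space is *sequentially pseudocompact* (sequentially feebly compact) if for each sequence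
`(U n)` of nonempty open sets there are an infinite set `J` of indices and a point `x` such that
every open neighbourhood of `x` misses `U n` for only finitely many `n ∈ J`. -/
def SeqPseudocompact (X : Type) [TopologicalSpace X] : Prop :=
  ∀ U : ℕ → Set X, (∀ n, IsOpen (U n) ∧ (U n).Nonempty) →
    ∃ (J : Set ℕ) (x : X), J.Infinite ∧
      ∀ W : Set X, IsOpen W → x ∈ W → {n | n ∈ J ∧ W ∩ U n = ∅}.Finite

/-- A space is *selectively sequentially pseudocompact* if for each sequence `(U n)` of nonempty
open sets one can pick `x n ∈ U n` for every `n` so that `(x n)` has a convergent subsequence. -/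
def SelSeqPseudocompact (X : Type) [TopologicalSpace X] : Prop :=
  ∀ U : ℕ → Set X, (∀ n, IsOpen (U n) ∧ (U n).Nonempty) →
    ∃ x : ℕ → X, (∀ n, x n ∈ U n) ∧
      ∃ (k : ℕ → ℕ) (a : X), StrictMono k ∧ Tendsto (fun n => x (k n)) atTop (𝓝 a)

/-- the index set -/
abbrev I : Type := ℝ

/-- the vector space with basis indexed by `I` over the field with two elements -/
abbrev V : Type := I →₀ ZMod 2

lemma mk_V : #V = 𝔠 := by
  have h : #(ZMod 2) ≤ ℵ₀ := (mk_lt_aleph0 (α := ZMod 2)).le
  rw [mk_finsupp_of_infinite, mk_real]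
  exact max_eq_left (h.trans aleph0_le_continuum)

lemma mk_seq_two : #(ℕ → ZMod 2) = 𝔠 := by
  have h : #(ZMod 2) = 2 := by
    rw [mk_fintype, ZMod.card]; rfl
  rw [← power_def, h, mk_nat, two_power_aleph0]

lemma mk_seq {X : Type} (h : #X = 𝔠) : #(ℕ → X) = 𝔠 := by
  rw [← power_def, h, mk_nat, continuum_power_aleph0]

lemma exists_E1 : Nonempty (I ≃ (ℕ → I) × (ℕ → ZMod 2)) := by
  rw [← Cardinal.eq, mk_real, mk_prod, lift_id, lift_id, mk_seq mk_real, mk_seq_two,
    continuum_mul_self]

lemma exists_E2 : Nonempty (I ≃ (ℕ → V) × I) := by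
  rw [← Cardinal.eq, mk_real, mk_prod, lift_id, lift_id, mk_seq mk_V, mk_real,
    continuum_mul_self]

/-- an injective sequence in a vector space over the field with two elements is not eventually
constant under some linear functional -/
lemma exists_functional (s : ℕ → V) (hs : Function.Injective s) :
    ∃ g : V →ₗ[ZMod 2] ZMod 2, {n | g (s n) = 0}.Infinite ∧ {n | g (s n) = 1}.Infinite := by
  classical
  obtain ⟨b, hbR, hspan, hli⟩ := exists_linearIndependent (ZMod 2) (Set.range s)
  have hRinf : (Set.range s).Infinite := Set.infinite_range_of_injective hs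
  have hbinf : b.Infinite := by
    intro hbf
    apply hRinf
    have hfin : Module.Finite (ZMod 2) (Submodule.span (ZMod 2) b) :=
      Module.Finite.span_of_finite (ZMod 2) hbf
    have hfin2 : Finite (Submodule.span (ZMod 2) b) := Module.finite_of_finite (ZMod 2)
    have h3 : ((Submodule.span (ZMod 2) b : Submodule (ZMod 2) V) : Set V).Finite :=
      Set.toFinite _
    refine h3.subset ?_
    rw [hspan]
    exact Submodule.subset_span
  let e : ℕ ↪ b := hbinf.natEmbedding
  have hli2 : LinearIndependent (ZMod 2) (fun n : ℕ => ((e n : b) : V)) :=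
    hli.comp e e.injective
  let B := Module.Basis.span hli2
  let f : Submodule.span (ZMod 2) (Set.range (fun n : ℕ => ((e n : b) : V))) →ₗ[ZMod 2] ZMod 2 :=
    B.constr (ZMod 2) (fun n : ℕ => (n : ZMod 2))
  obtain ⟨g, hg⟩ := LinearMap.exists_extend f
  have hgval : ∀ n : ℕ, g ((e n : b) : V) = (n : ZMod 2) := by
    intro n
    have h1 : (B n : Submodule.span (ZMod 2) (Set.range (fun n : ℕ => ((e n : b) : V)))) =
        ⟨((e n : b) : V), Submodule.subset_span ⟨n, rfl⟩⟩ := Module.Basis.span_apply hli2 n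
    have h2 : f (B n) = (n : ZMod 2) := by
      simp [f]
    rw [h1] at h2
    rw [← h2, ← hg]
    rfl
  have hidx : ∀ n : ℕ, ∃ m : ℕ, s m = ((e n : b) : V) := fun n => hbR (e n).2
  choose m hm using hidx
  have hminj : Function.Injective m := by
    intro a c hac
    apply e.injective
    apply Subtype.ext
    rw [← hm a, ← hm c, hac]
  refine ⟨g, ?_, ?_⟩
  · have h2 : Function.Injective (fun k : ℕ => m (2 * k)) := by
      intro a c hac
      have := hminj hac
      omega
    refine (Set.infinite_range_of_injective h2).mono ?_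
    rintro _ ⟨k, rfl⟩
    simp only [Set.mem_ofPred_eq]
    rw [hm, hgval]
    have : (2 : ZMod 2) = 0 := rfl
    push_cast
    rw [this, zero_mul]
  · have h2 : Function.Injective (fun k : ℕ => m (2 * k + 1)) := by
      intro a c hac
      have := hminj hac
      omega
    refine (Set.infinite_range_of_injective h2).mono ?_
    rintro _ ⟨k, rfl⟩
    simp only [Set.mem_ofPred_eq]
    rw [hm, hgval]
    have : (2 : ZMod 2) = 0 := rfl
    push_cast
    rw [this, zero_mul, zero_add]

/-- There is a linear map from `V` to `(ZMod 2) ^ I` such that (A) its image projects onto every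
countable subproduct and (B) no injective sequence has an image that converges. -/
lemma exists_map : ∃ φ : V →ₗ[ZMod 2] (I → ZMod 2),
    (∀ (D : Set I) (y : I → ZMod 2), D.Countable → ∃ v : V, ∀ α ∈ D, φ v α = y α) ∧
    (∀ s : ℕ → V, Function.Injective s → ∃ α : I,
      {n | φ (s n) α = 0}.Infinite ∧ {n | φ (s n) α = 1}.Infinite) := by
  classical
  obtain ⟨E1⟩ := exists_E1
  obtain ⟨E2⟩ := exists_E2
  have hch : ∀ s : ℕ → V, ∃ g : V →ₗ[ZMod 2] ZMod 2, Function.Injective s →
      {n | g (s n) = 0}.Infinite ∧ {n | g (s n) = 1}.Infinite := by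
    intro s
    by_cases hs : Function.Injective s
    · obtain ⟨g, hg⟩ := exists_functional s hs
      exact ⟨g, fun _ => hg⟩
    · exact ⟨0, fun h => absurd h hs⟩
  choose gh hgh using hch
  let val : I → I → ZMod 2 := fun α ξ =>
    if h : ∃ n, (E1 ξ).1 n = α then (E1 ξ).2 (Nat.find h) else gh (E2 α).1 (Finsupp.single ξ 1)
  let φ : V →ₗ[ZMod 2] (I → ZMod 2) := LinearMap.pi fun α => Finsupp.linearCombination (ZMod 2)
    (val α)
  have hφs : ∀ (ξ α : I), φ (Finsupp.single ξ 1) α = val α ξ := by
    intro ξ α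
    simp [φ]
  refine ⟨φ, ?_, ?_⟩
  · intro D y hD
    rcases D.eq_empty_or_nonempty with rfl | hne
    · exact ⟨0, by simp⟩
    obtain ⟨a, rfl⟩ := hD.exists_eq_range hne
    refine ⟨Finsupp.single (E1.symm (a, fun n => y (a n))) 1, ?_⟩
    rintro _ ⟨n, rfl⟩
    rw [hφs]
    have h : ∃ m, (E1 (E1.symm (a, fun n => y (a n)))).1 m = a n := ⟨n, by simp⟩
    simp only [val, dif_pos h]
    have h2 := Nat.find_spec h
    simp only [Equiv.apply_symm_apply] at h2 ⊢
    rw [h2]
  · intro s hs
    have hC : (⋃ n, ⋃ ξ ∈ (s n).support, Set.range (E1 ξ).1).Countable := by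
      refine Set.countable_iUnion fun n => ?_
      refine Set.Countable.biUnion (Finset.countable_toSet _) fun ξ _ => ?_
      exact Set.countable_range _
    have hU : ¬ (Set.range (fun t : I => E2.symm (s, t))).Countable := by
      intro h
      have hinj : Function.Injective (fun t : I => E2.symm (s, t)) := by
        intro t t' h
        have := E2.symm.injective h
        exact (Prod.mk.inj this).2
      have h3 : Countable I := by
        have := h.to_subtype
        exact (Equiv.ofInjective _ hinj).countable_iff.2 this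
      exact not_countable (α := ℝ) h3
    obtain ⟨α, hα1, hα2⟩ : ∃ α, α ∈ Set.range (fun t : I => E2.symm (s, t)) ∧
        α ∉ ⋃ n, ⋃ ξ ∈ (s n).support, Set.range (E1 ξ).1 := by
      by_contra hcon
      push Not at hcon
      exact hU (hC.mono hcon)
    obtain ⟨t, rfl⟩ := hα1
    refine ⟨E2.symm (s, t), ?_⟩
    have key : ∀ n, φ (s n) (E2.symm (s, t)) = gh s (s n) := by
      intro n
      have h1 : φ (s n) (E2.symm (s, t)) = (s n).sum fun ξ c => c • val (E2.symm (s, t)) ξ := by
        simp only [φ, LinearMap.pi_apply, Finsupp.linearCombination_apply]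
      have h2 : gh s (s n) = (s n).sum fun ξ c => c • gh s (Finsupp.single ξ 1) := by
        conv_lhs => rw [← Finsupp.sum_single (s n)]
        rw [map_finsuppSum]
        refine Finsupp.sum_congr fun ξ _ => ?_
        rw [← map_smul, Finsupp.smul_single, smul_eq_mul, mul_one]
      rw [h1, h2]
      refine Finsupp.sum_congr fun ξ hξ => ?_
      congr 1
      have h3 : ¬ ∃ m, (E1 ξ).1 m = E2.symm (s, t) := by
        rintro ⟨m, hm⟩
        apply hα2
        simp only [Set.mem_iUnion]
        exact ⟨n, ξ, hξ, m, hm⟩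
      simp only [val, dif_neg h3, Equiv.apply_symm_apply]
    have := hgh s hs
    simp only [key]
    exact this

/-- neighbourhoods in a subgroup of the product -/
lemma mem_open_iff {G : AddSubgroup (I → ZMod 2)} {W : Set G} (hW : IsOpen W) {x : G} (hx : x ∈ W) :
    ∃ F : Finset I, ∀ z : G, (∀ α ∈ F, (z : I → ZMod 2) α = (x : I → ZMod 2) α) → z ∈ W := by
  obtain ⟨O, hO, rfl⟩ := isOpen_induced_iff.1 hW
  obtain ⟨F, u, hu, hsub⟩ := isOpen_pi_iff.1 hO x hx
  refine ⟨F, fun z hz => hsub ?_⟩
  intro α hα
  rw [hz α hα]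
  exact (hu α hα).2

lemma seqPseudocompact (φ : V →ₗ[ZMod 2] (I → ZMod 2))
    (hA : ∀ (D : Set I) (y : I → ZMod 2), D.Countable → ∃ v : V, ∀ α ∈ D, φ v α = y α) :
    SeqPseudocompact (φ.toAddMonoidHom.range) := by
  classical
  intro U hU
  choose y hy using fun n => (hU n).2
  choose F hF using fun n => mem_open_iff (hU n).1 (hy n)
  have hD : (⋃ n, (F n : Set I)).Countable :=
    Set.countable_iUnion fun n => (F n).countable_toSet
  obtain ⟨D, hDdef⟩ : ∃ D, D = ⋃ n, (F n : Set I) := ⟨_, rfl⟩
  rw [← hDdef] at hD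
  have hDc : Countable D := hD.to_subtype
  -- the restrictions to `D` live in a compact metrizable space
  obtain ⟨w, -, k, hk, hlim⟩ := (isSeqCompact_univ (X := D → ZMod 2)).subseq_of_frequently_in
    (x := fun n (α : D) => (y n : I → ZMod 2) α)
    (Filter.Frequently.of_forall fun _ => Set.mem_univ _)
  obtain ⟨v, hv⟩ := hA D (fun α => if h : α ∈ D then w ⟨α, h⟩ else 0) hD
  refine ⟨Set.range k, ⟨φ v, v, rfl⟩, Set.infinite_range_of_injective hk.injective, ?_⟩
  intro W hW hxW
  obtain ⟨E, hE⟩ := mem_open_iff hW hxW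
  -- for large `n` the point `y (k n)` agrees with `w` on `E ∩ D`
  have hev : ∀ᶠ n in atTop, ∀ α : D, (α : I) ∈ E → (y (k n) : I → ZMod 2) α = w α := by
    have h1 : ∀ α ∈ {α : D | (α : I) ∈ E}, ∀ᶠ n in atTop, (y (k n) : I → ZMod 2) α = w α := by
      intro α _
      have h2 := (tendsto_pi_nhds.1 hlim) α
      rw [nhds_discrete, tendsto_pure] at h2
      exact h2
    have hfin : {α : D | (α : I) ∈ E}.Finite := by
      apply Set.Finite.preimage (Subtype.val_injective.injOn) E.finite_toSet
    have h3 := (Filter.eventually_all_finite hfin).2 h1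
    exact h3
  obtain ⟨N, hN⟩ := eventually_atTop.1 hev
  refine (Set.finite_Iio N).image k |>.subset ?_
  rintro _ ⟨⟨n, rfl⟩, hn⟩
  refine ⟨n, ?_, rfl⟩
  by_contra hcon
  simp only [Set.mem_Iio, not_lt] at hcon
  have hag := hN n hcon
  obtain ⟨v', hv'⟩ := hA (↑(E ∪ F (k n))) (fun α => if α ∈ F (k n) then (y (k n) : I → ZMod 2) α
    else φ v α) (Finset.countable_toSet _)
  have hmem1 : (⟨φ v', v', rfl⟩ : φ.toAddMonoidHom.range) ∈ U (k n) := by
    apply hF (k n)
    intro α hα
    have := hv' α (by simp [hα])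
    rw [if_pos hα] at this
    exact this
  have hmem2 : (⟨φ v', v', rfl⟩ : φ.toAddMonoidHom.range) ∈ W := by
    apply hE
    intro α hα
    have h4 := hv' α (by simp [hα])
    change φ v' α = φ v α
    rw [h4]
    split_ifs with h5
    · have hαD : α ∈ D := by
        rw [hDdef]
        exact Set.mem_iUnion.2 ⟨k n, h5⟩
      have h6 := hag ⟨α, hαD⟩ hα
      have h7 := hv α hαD
      rw [dif_pos hαD] at h7
      rw [h7]
      exact h6
    · rfl
  have : (⟨φ v', v', rfl⟩ : φ.toAddMonoidHom.range) ∈ W ∩ U (k n) := ⟨hmem2, hmem1⟩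
  rw [hn] at this
  exact this

lemma infinite_range (φ : V →ₗ[ZMod 2] (I → ZMod 2))
    (hA : ∀ (D : Set I) (y : I → ZMod 2), D.Countable → ∃ v : V, ∀ α ∈ D, φ v α = y α) :
    Infinite (φ.toAddMonoidHom.range) := by
  classical
  have h : ∀ n : ℕ, ∃ v : V, ∀ α ∈ Set.range (fun m : ℕ => (m : I)), φ v α =
      (if α = (n : I) then 1 else 0 : ZMod 2) := fun n => hA _ _ (Set.countable_range _)
  choose v hv using h
  refine Infinite.of_injective (fun n : ℕ => (⟨φ (v n), v n, rfl⟩ : φ.toAddMonoidHom.range)) ?_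
  intro n m hnm
  by_contra hne
  have h1 : φ (v n) = φ (v m) := congrArg Subtype.val hnm
  have h2 := hv n (n : I) ⟨n, rfl⟩
  have h3 := hv m (n : I) ⟨n, rfl⟩
  rw [if_pos rfl] at h2
  rw [if_neg (by exact_mod_cast hne)] at h3
  rw [h1, h3] at h2
  exact absurd h2 (by decide)

lemma not_selSeqPseudocompact (φ : V →ₗ[ZMod 2] (I → ZMod 2))
    (hA : ∀ (D : Set I) (y : I → ZMod 2), D.Countable → ∃ v : V, ∀ α ∈ D, φ v α = y α)
    (hB : ∀ s : ℕ → V, Function.Injective s → ∃ α : I,
      {n | φ (s n) α = 0}.Infinite ∧ {n | φ (s n) α = 1}.Infinite) :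
    ¬ SelSeqPseudocompact (φ.toAddMonoidHom.range) := by
  intro hsel
  have hinf := infinite_range φ hA
  obtain ⟨U, hU1, hU2, hU3⟩ := exists_seq_infinite_isOpen_pairwise_disjoint
    (φ.toAddMonoidHom.range)
  obtain ⟨x, hx, k, a, hk, hlim⟩ := hsel U fun n => ⟨hU2 n, (hU1 n).nonempty⟩
  have hinj : Function.Injective x := by
    intro n m hnm
    by_contra hne
    exact (Set.disjoint_left.1 (hU3 hne)) (hx n) (hnm ▸ hx m)
  choose s hs using fun n => (x (k n)).2
  have hsinj : Function.Injective s := by
    intro n m hnm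
    apply hk.injective
    apply hinj
    apply Subtype.ext
    rw [← hs n, ← hs m, hnm]
  obtain ⟨α, h0, h1⟩ := hB s hsinj
  have hlim2 : Tendsto (fun n => ((x (k n) : I → ZMod 2)) α) atTop (𝓝 ((a : I → ZMod 2) α)) :=
    (tendsto_pi_nhds.1 ((continuous_subtype_val.tendsto a).comp hlim)) α
  rw [nhds_discrete, tendsto_pure] at hlim2
  have hval : ∀ n, ((x (k n) : I → ZMod 2)) α = φ (s n) α := by
    intro n
    rw [← hs n]
    rfl
  obtain ⟨N, hN⟩ := eventually_atTop.1 hlim2
  obtain ⟨n, hn, hnN⟩ := h0.exists_gt N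
  obtain ⟨m, hm, hmN⟩ := h1.exists_gt N
  have e1 := hN n hnN.le
  have e2 := hN m hmN.le
  rw [hval] at e1 e2
  simp only [Set.mem_ofPred_eq] at hn hm
  rw [hn] at e1
  rw [hm, ← e1] at e2
  exact absurd e2 (by decide)

/-- **A ZFC example.** There is an Abelian (even Boolean) Hausdorff topological group whose
underlying (Tychonoff) space is sequentially pseudocompact but not selectively sequentially
pseudocompact. -/
theorem result : ∃ (G : Type) (_ : AddCommGroup G) (_ : TopologicalSpace G)
    (_ : IsTopologicalAddGroup G) (_ : T35Space G),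
    (∀ x : G, x + x = 0) ∧ SeqPseudocompact G ∧ ¬ SelSeqPseudocompact G := by
  obtain ⟨φ, hA, hB⟩ := exists_map
  refine ⟨φ.toAddMonoidHom.range, inferInstance, inferInstance, inferInstance, inferInstance,
    ?_, seqPseudocompact φ hA, not_selSeqPseudocompact φ hA hB⟩
  intro x
  apply Subtype.ext
  funext α
  change (x : I → ZMod 2) α + (x : I → ZMod 2) α = 0
  exact CharTwo.add_self_eq_zero _

end Pool.Agent.Results.MP_3c9c51_gt.ZfcExampleH80
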